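import Pool.Agent.W8.KU.Stm

/-! Part `Vol` of the project KU (MP_5bdae7_gt): volumes of the cells. -/

set_option autoImplicit false

open MeasureTheory Metric

namespace Pool.Agent.W252.KU

open Pool.Agent.W8.KU

theorem vol_ball (z : E3) (r : ℝ) (hr : 0 ≤ r) :
    volume (ball z r) = ENNReal.ofReal (r ^ 3) * volume (ball (0 : E3) 1) := by
  have h := Measure.addHaar_ball (volume : Measure E3) z hr
  rw [finrank_euclideanSpace_fin] at h
  exact h

theorem vol_closedBall (z : E3) (r : ℝ) (hr : 0 ≤ r) :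
    volume (closedBall z r) = ENNReal.ofReal (r ^ 3) * volume (ball (0 : E3) 1) := by
  have h := Measure.addHaar_closedBall (volume : Measure E3) z hr
  rw [finrank_euclideanSpace_fin] at h
  exact h

theorem dist_P0 : dist P0 (0 : E3) = 20 := by
  rw [dist_zero_right]
  unfold P0
  rw [EuclideanSpace.norm_single]
  norm_num

theorem vol_union (a c : ℝ) (ha : 0 < a) (hc : 0 < c) (hac : a + c ≤ 20) :
    volume (ball P0 a ∪ ball (0 : E3) c) =
      ENNReal.ofReal (a ^ 3 + c ^ 3) * volume (ball (0 : E3) 1) := by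
  have hd : Disjoint (ball P0 a) (ball (0 : E3) c) := by
    apply ball_disjoint_ball
    rw [dist_P0]
    exact hac
  rw [measure_union hd measurableSet_ball, vol_ball _ _ ha.le, vol_ball _ _ hc.le, ← add_mul,
    ENNReal.ofReal_add (by positivity) (by positivity)]

theorem vol_shell (b c : ℝ) (hc : 0 < c) (hcb : c < b) :
    volume (ball (0 : E3) b \ closedBall 0 c) =
      ENNReal.ofReal (b ^ 3 - c ^ 3) * volume (ball (0 : E3) 1) := by
  have hV : volume (ball (0 : E3) 1) ≠ ⊤ := measure_ball_lt_top.ne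
  rw [measure_diff (closedBall_subset_ball hcb) measurableSet_closedBall.nullMeasurableSet
    measure_closedBall_lt_top.ne, vol_ball _ _ (hc.trans hcb).le, vol_closedBall _ _ hc.le,
    ENNReal.ofReal_sub _ (by positivity), ENNReal.sub_mul (fun _ _ => hV)]

theorem Vol_proof : Vol := by
  intro hRad t ht
  have ht1 : |t| < 1 := ht.trans (by norm_num)
  obtain ⟨ha3, hb3, hc3, ha, hb, hc, ha1, hb1, hc1, -, -, -⟩ := hRad.2 t ht1
  have ha2 : ra t ≤ 3 := by
    have := (abs_le.mp ha1).2
    linarith
  have hc2 : rc t ≤ 4 := by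
    have := (abs_le.mp hc1).2
    linarith
  have hb2 : 5 ≤ rb t := by
    have := (abs_le.mp hb1).1
    linarith
  constructor
  · have h0 : Om 0 = ball P0 2 ∪ ball (0 : E3) 3 := rfl
    rw [h0, vol_union _ _ ha hc (by linarith), vol_union 2 3 (by norm_num) (by norm_num) (by norm_num),
      ha3, hc3]
    congr 2
    ring
  · have h1 : Om 1 = ball (0 : E3) 6 \ closedBall 0 3 := rfl
    rw [h1, vol_shell _ _ hc (by linarith), vol_shell 6 3 (by norm_num) (by norm_num), hb3, hc3]
    congr 2
    ring

end Pool.Agent.W252.KU
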